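import Mathlib

/-!
# The orthogonal lifting problem of Beilinson and Bloch depends only on the motive
-/

universe u

namespace Pool.Agent.Results.MP_62d77c_ag.MotivicInvariance

/-- Cohomologically trivial cycles on the smooth proper varieties over a number field `E` and on
their regular models over `O_E`, with the Gillet–Soulé pairing. -/
structure CycleData where
  /-- the smooth proper varieties over `E` -/
  Var : Type u
  /-- the dimension -/
  dim : Var → ℤ
  /-- `Ch X i` is `Ch^i(X)_{ℚ,0}` -/
  Ch : Var → ℤ → Type u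
  [chGroup : ∀ X i, AddCommGroup (Ch X i)]
  [chModule : ∀ X i, Module ℚ (Ch X i)]
  /-- `Cor X i Y j`: the correspondences `Γ ∈ Ch^{dim X + j - i}(X × Y)_ℚ`, which map `Ch^i(X)` to
  `Ch^j(Y)` -/
  Cor : Var → ℤ → Var → ℤ → Type u
  /-- the action `Γ_* : Ch^i(X)_{ℚ,0} → Ch^j(Y)_{ℚ,0}` of a correspondence -/
  act : ∀ {X Y : Var} {i j : ℤ}, Cor X i Y j → Ch X i →ₗ[ℚ] Ch Y j
  /-- the diagonal of `X`, as a correspondence -/
  diag : ∀ (X : Var) (i : ℤ), Cor X i X i
  act_diag : ∀ (X : Var) (i : ℤ) (c : Ch X i), act (diag X i) c = c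
  /-- the regular proper flat models of `X` over `O_E` -/
  Model : Var → Type u
  /-- for a model `M` of `X`, `MCh M i` is `Ch^i(M)_{ℚ,0}`, the group of the cycle classes on `M`
  whose restriction to the generic fibre `X` is cohomologically trivial -/
  MCh : ∀ {X : Var}, Model X → ℤ → Type u
  [mchGroup : ∀ {X : Var} (M : Model X) (i : ℤ), AddCommGroup (MCh M i)]
  [mchModule : ∀ {X : Var} (M : Model X) (i : ℤ), Module ℚ (MCh M i)]
  /-- restriction to the generic fibre -/
  res : ∀ {X : Var} (M : Model X) (i : ℤ), MCh M i →ₗ[ℚ] Ch X i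
  /-- the Gillet–Soulé arithmetic intersection pairing of `Ch^i(M)_{ℚ,0}` and `Ch^j(M)_{ℚ,0}`,
  extended by zero to the pairs with `i + j ≠ dim X + 1` -/
  pair : ∀ {X : Var} (M : Model X) (i j : ℤ), MCh M i →ₗ[ℚ] MCh M j →ₗ[ℚ] ℝ
  pair_eq_zero : ∀ {X : Var} (M : Model X) (i j : ℤ), i + j ≠ dim X + 1 → pair M i j = 0

attribute [instance] CycleData.chGroup CycleData.chModule CycleData.mchGroup CycleData.mchModule

namespace CycleData

variable (D : CycleData.{u})

/-- Correspondences extend to regular models: for a correspondence `Γ` from `X` to `Y` and regular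
models `M` of `X` and `N` of `Y` there is a map `Φ` from the cycles on `M` to those on `N` (the
action of the closure of `Γ` in `M × N`) which induces `Γ_*` on the generic fibres, and has an
adjoint on fibral cycles: for every fibral cycle `β` on `N` there is a fibral cycle `β'` on `M`
(the image of `β` under the transpose of the closure of `Γ`) with `(Φ α, β) = (α, β')` for
all `α`. -/
def CorrespondencesExtend : Prop :=
  ∀ {X Y : D.Var} {i j : ℤ} (Γ : D.Cor X i Y j) (M : D.Model X) (N : D.Model Y),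
    ∃ Φ : D.MCh M i →ₗ[ℚ] D.MCh N j, (∀ α, D.res N j (Φ α) = D.act Γ (D.res M i α)) ∧
      ∀ (l : ℤ) (β : D.MCh N l), D.res N l β = 0 →
        ∃ (m : ℤ) (β' : D.MCh M m), D.res M m β' = 0 ∧
          ∀ α, D.pair N j l (Φ α) β = D.pair M i m α β'

/-- The class `α` on the model `M` is orthogonal to all fibral cycles on `M` (for the classes `β`
with `res β = 0` are the classes of the cycles supported in closed fibres). -/
def Perp {X : D.Var} (M : D.Model X) (i : ℤ) (α : D.MCh M i) : Prop :=
  ∀ (j : ℤ) (β : D.MCh M j), D.res M j β = 0 → D.pair M i j α β = 0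

/-- The class `c` on the variety `X` lifts to the model `M`: it is the restriction of a class on `M`
which is orthogonal to all fibral cycles. -/
def LiftsTo {X : D.Var} (M : D.Model X) (i : ℤ) (c : D.Ch X i) : Prop :=
  ∃ α : D.MCh M i, D.Perp M i α ∧ D.res M i α = c

/-- The assertion of Q1 for the variety `X` in codimension `i`: for every regular proper flat model
`M` of `X`, every cohomologically trivial cycle class of codimension `i` on `X` lifts to `M`. -/
def Q1 (X : D.Var) (i : ℤ) : Prop := ∀ (M : D.Model X) (c : D.Ch X i), D.LiftsTo M i c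

/-- `Ch^i(X)_{ℚ,0}` is a summand of the sum of the groups `Ch^{j_k}(Y_k)_{ℚ,0}`, for the members
`(Y_k, j_k)` of a finite family, by means of correspondences: there are correspondences `Γ_k` from
`X` to `Y_k` and `Δ_k` from `Y_k` to `X` with `∑ Δ_k ∘ Γ_k = 1` on `Ch^i(X)_{ℚ,0}`. This holds if
the Chow motive of `X` is a direct summand of the sum of the motives `h(Y_k)(j_k - i)`, and also
if there is a surjective morphism of some `Y` onto `X` which is generically finite. -/
def IsSummand (X : D.Var) (i : ℤ) {K : Type} [Fintype K] (Y : K → D.Var) (j : K → ℤ) : Prop :=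
  ∃ (Γ : ∀ k, D.Cor X i (Y k) (j k)) (Δ : ∀ k, D.Cor (Y k) (j k) X i),
    ∀ c : D.Ch X i, ∑ k, D.act (Δ k) (D.act (Γ k) c) = c

theorem LiftsTo.act {D : CycleData.{u}} (hD : D.CorrespondencesExtend) {X Y : D.Var} {i j : ℤ}
    (Γ : D.Cor X i Y j) (M : D.Model X) (N : D.Model Y) {c : D.Ch X i} (hc : D.LiftsTo M i c) :
    D.LiftsTo N j (D.act Γ c) := by
  obtain ⟨α, hα, rfl⟩ := hc
  obtain ⟨Φ, hΦ, hΦ'⟩ := hD Γ M N
  refine ⟨Φ α, fun l β hβ => ?_, hΦ α⟩
  obtain ⟨m, β', hβ', h⟩ := hΦ' l β hβ
  rw [h, hα m β' hβ']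

theorem LiftsTo.sum {D : CycleData.{u}} {X : D.Var} {i : ℤ} (M : D.Model X) {K : Type}
    (s : Finset K) {c : K → D.Ch X i} (hc : ∀ k ∈ s, D.LiftsTo M i (c k)) :
    D.LiftsTo M i (∑ k ∈ s, c k) := by
  classical
  induction s using Finset.induction_on with
  | empty => exact ⟨0, fun j β _ => by simp, by simp⟩
  | insert a s ha ih =>
    obtain ⟨x, hx, hx'⟩ := hc a (Finset.mem_insert_self a s)
    obtain ⟨y, hy, hy'⟩ := ih fun k hk => hc k (Finset.mem_insert_of_mem hk)
    refine ⟨x + y, fun j β hβ => ?_, ?_⟩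
    · rw [map_add, LinearMap.add_apply, hx j β hβ, hy j β hβ, add_zero]
    · rw [map_add, hx', hy', Finset.sum_insert ha]

end CycleData

/-- **The lifting problem of Beilinson and Bloch depends only on the motive.**

(1) Correspondences preserve the classes that lift: if the class `c ∈ Ch^i(X)_{ℚ,0}` lifts to *one*
regular model of `X`, then for every correspondence `Γ` from `X` to `Y` the class
`Γ_* c ∈ Ch^j(Y)_{ℚ,0}` lifts to *every* regular model of `Y`. In particular (`Γ` the diagonal)
whether `c` lifts does not depend on the model of `X`.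

(2) Let `Ch^i(X)_{ℚ,0}` be a summand, by correspondences, of the sum of the groups
`Ch^{j_k}(Y_k)_{ℚ,0}`, and suppose that for every `k` all classes in `Ch^{j_k}(Y_k)_{ℚ,0}` lift to
*some* regular model of `Y_k`. Then Q1 holds for `X` in codimension `i`, for every regular model
of `X`. -/
theorem result (D : CycleData.{u}) (hD : D.CorrespondencesExtend) :
    (∀ {X Y : D.Var} {i j : ℤ} (Γ : D.Cor X i Y j) (c : D.Ch X i),
      (∃ M : D.Model X, D.LiftsTo M i c) → ∀ N : D.Model Y, D.LiftsTo N j (D.act Γ c)) ∧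
    (∀ (X : D.Var) (i : ℤ) {K : Type} [Fintype K] (Y : K → D.Var) (j : K → ℤ),
      D.IsSummand X i Y j → (∀ k, ∃ N : D.Model (Y k), ∀ y, D.LiftsTo N (j k) y) → D.Q1 X i) := by
  refine ⟨fun Γ c ⟨M, hc⟩ N => hc.act hD Γ M N, ?_⟩
  intro X i K _ Y j hX hY M c
  obtain ⟨Γ, Δ, hid⟩ := hX
  choose N hN using hY
  rw [← hid c]
  exact CycleData.LiftsTo.sum M Finset.univ fun k _ => (hN k _).act hD (Δ k) (N k) M

end Pool.Agent.Results.MP_62d77c_ag.MotivicInvariance
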